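import Mathlib

/-!
# Symmetric multilinear forms and the key lemma
-/

set_option autoImplicit false

namespace Pool.TF83

/-- symmetric multilinear maps -/
def SymForm {R M A ι : Type} [CommRing R] [AddCommGroup M] [Module R M] [AddCommGroup A]
    [Module R A] (B : MultilinearMap R (fun _ : ι => M) A) : Prop :=
  ∀ (σ : Equiv.Perm ι) (v : ι → M), B (v ∘ σ) = B v

theorem symForm_of_swap {R M A ι : Type} [CommRing R] [AddCommGroup M] [Module R M]
    [AddCommGroup A] [Module R A] [Finite ι] [DecidableEq ι]
    (B : MultilinearMap R (fun _ : ι => M) A)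
    (h : ∀ (i j : ι) (v : ι → M), i ≠ j → B (v ∘ Equiv.swap i j) = B v) : SymForm B := by
  intro σ
  induction σ using Equiv.Perm.swap_induction_on with
  | one => intro v; rfl
  | swap_mul f x y hxy ih =>
    intro v
    have e : (v ∘ ⇑(Equiv.swap x y * f)) = (v ∘ ⇑(Equiv.swap x y)) ∘ ⇑f := rfl
    rw [e, ih, h x y v hxy]

theorem pow_le_of_prod {R : Type} [CommRing R] (b : Ideal R) (k : ℕ) :
    ∀ (K : Ideal R), (∀ f : Fin k → R, (∀ i, f i ∈ b) → ∏ i, f i ∈ K) → b ^ k ≤ K := by
  induction k with
  | zero =>
    intro K h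
    have := h (fun i => i.elim0) (fun i => i.elim0)
    rw [Fin.prod_univ_zero] at this
    rw [(Ideal.eq_top_iff_one K).2 this]
    exact le_top
  | succ k ih =>
    intro K h
    rw [pow_succ, Ideal.mul_le]
    intro r hr s hs
    have h2 : b ^ k ≤ Submodule.comap (LinearMap.mulRight R s) K := by
      refine ih (Submodule.comap (LinearMap.mulRight R s) K) ?_
      intro f hf
      change (∏ i, f i) * s ∈ K
      have := h (Fin.snoc f s : Fin (k + 1) → R) (by
        intro i
        refine Fin.lastCases ?_ (fun j => ?_) i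
        · simpa using hs
        · simpa using hf j)
      rw [Fin.prod_univ_castSucc] at this
      simpa using this
    exact h2 hr

/-- The key lemma. -/
theorem key_aux {R : Type} [CommRing R] {ι : Type} [Fintype ι] (b : Ideal R) (n : ℕ) :
    ∀ (M : Type) [AddCommGroup M] [Module R M] (w : Fin n → M)
      (_ : Submodule.span R (Set.range w) = ⊤)
      (_ : ∀ (A : Type) [AddCommGroup A] [Module R A] (B : MultilinearMap R (fun _ : ι => M) A),
        SymForm B → ∀ a ∈ b, ∀ v, a • B v = 0), ∃ N : ℕ, ∀ a ∈ b ^ N, ∀ m : M, a • m = 0 := by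
  classical
  induction n with
  | zero =>
    intro M _ _ w hw _
    refine ⟨0, ?_⟩
    intro a _ m
    have : m ∈ (⊤ : Submodule R M) := trivial
    rw [← hw, Set.range_eq_empty, Submodule.span_empty, Submodule.mem_bot] at this
    rw [this, smul_zero]
  | succ n ih =>
    intro M _ _ w hw h
    set W : Submodule R M := Submodule.span R {w 0} with hW
    obtain ⟨N, hN⟩ := ih (M ⧸ W) (fun i => W.mkQ (w i.succ)) (by
        rw [eq_top_iff]
        rintro x -
        obtain ⟨y, rfl⟩ := W.mkQ_surjective x
        have hy : y ∈ Submodule.span R (Set.range w) := by rw [hw]; trivial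
        refine Submodule.span_induction (p := fun y _ => W.mkQ y ∈
          Submodule.span R (Set.range fun i : Fin n => W.mkQ (w i.succ))) ?_ ?_ ?_ ?_ hy
        · rintro _ ⟨i, rfl⟩
          refine Fin.cases ?_ (fun j => ?_) i
          · have : W.mkQ (w 0) = 0 := by
              rw [Submodule.mkQ_apply, Submodule.Quotient.mk_eq_zero]
              exact Submodule.mem_span_singleton_self _
            rw [this]; exact Submodule.zero_mem _
          · exact Submodule.subset_span ⟨j, rfl⟩
        · rw [map_zero]; exact Submodule.zero_mem _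
        · intro x y _ _ hx hy; rw [map_add]; exact Submodule.add_mem _ hx hy
        · intro a x _ hx; rw [map_smul]; exact Submodule.smul_mem _ _ hx)
      (by
        intro A _ _ B hB a ha v
        choose u hu using fun i => W.mkQ_surjective (v i)
        have h1 := h A (B.compLinearMap (fun _ => W.mkQ)) (by
          intro σ v
          rw [MultilinearMap.compLinearMap_apply, MultilinearMap.compLinearMap_apply]
          exact hB σ (fun i => W.mkQ (v i))) a ha u
        rw [MultilinearMap.compLinearMap_apply] at h1
        simpa only [hu] using h1)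
    have hN' : ∀ a ∈ b ^ N, ∀ m : M, ∃ c : R, c • w 0 = a • m := by
      intro a ha m
      have := hN a ha (W.mkQ m)
      rw [← map_smul, Submodule.mkQ_apply, Submodule.Quotient.mk_eq_zero, hW,
        Submodule.mem_span_singleton] at this
      exact this
    -- the annihilator of `w 0`
    let I : Ideal R := LinearMap.ker (LinearMap.toSpanSingleton R M (w 0))
    have hI : ∀ c : R, c ∈ I ↔ c • w 0 = 0 := by
      intro c
      change c ∈ LinearMap.ker _ ↔ _
      rw [LinearMap.mem_ker, LinearMap.toSpanSingleton_apply]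
    have hIe : ∀ c d : R, (Ideal.Quotient.mk I c = Ideal.Quotient.mk I d) ↔
        c • w 0 = d • w 0 := by
      intro c d
      rw [Ideal.Quotient.eq, hI, sub_smul, sub_eq_zero]
    -- division
    choose! co hco using hN'
    let φ : (a : R) → a ∈ b ^ N → (M →ₗ[R] (R ⧸ I)) := fun a ha =>
      { toFun := fun m => Ideal.Quotient.mk I (co a m)
        map_add' := by
          intro x y
          rw [← map_add, hIe, add_smul, hco a ha, hco a ha, hco a ha, smul_add]
        map_smul' := by
          intro r x
          have : (RingHom.id R) r • Ideal.Quotient.mk I (co a x) =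
            Ideal.Quotient.mk I (r * co a x) := rfl
          rw [this, hIe, mul_smul, hco a ha, hco a ha, smul_comm] }
    have hφ : ∀ a ha m, φ a ha m = Ideal.Quotient.mk I (co a m) := fun _ _ _ => rfl
    let ψ : (R ⧸ I) →ₗ[R] M := Submodule.liftQ I (LinearMap.toSpanSingleton R M (w 0)) le_rfl
    have hψ : ∀ c : R, ψ (Ideal.Quotient.mk I c) = c • w 0 := by
      intro c
      change Submodule.liftQ I (LinearMap.toSpanSingleton R M (w 0)) le_rfl
        (Submodule.Quotient.mk c) = _
      rw [Submodule.liftQ_apply, LinearMap.toSpanSingleton_apply]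
    -- exchange
    have hex : ∀ a (ha : a ∈ b ^ N) a' (ha' : a' ∈ b ^ N) m,
        Ideal.Quotient.mk I a' * φ a ha m = Ideal.Quotient.mk I a * φ a' ha' m := by
      intro a ha a' ha' m
      rw [hφ a ha, hφ a' ha', ← map_mul, ← map_mul, hIe, mul_smul, mul_smul, hco a ha,
        hco a' ha', smul_comm]
    have hval : ∀ (a0 : R) (_ : a0 ∈ b ^ N) (a : ι → R) (_ : ∀ i, a i ∈ b ^ N) (c : R)
        (_ : c ∈ b), (c * (a0 * ∏ i, a i)) • w 0 = 0 := by
      intro a0 ha0 a ha c hc
      let B : MultilinearMap R (fun _ : ι => M) M :=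
        (ψ ∘ₗ LinearMap.mulLeft R (Ideal.Quotient.mk I a0)).compMultilinearMap
          ((MultilinearMap.mkPiAlgebra R ι (R ⧸ I)).compLinearMap (fun i => φ (a i) (ha i)))
      have hB : ∀ v, B v = ψ (Ideal.Quotient.mk I a0 * ∏ i, φ (a i) (ha i) (v i)) := by
        intro v
        rfl
      have hs : SymForm B := by
        refine symForm_of_swap B ?_
        intro i j v hij
        rw [hB, hB]
        congr 1
        have hj : j ∈ Finset.univ.erase i := Finset.mem_erase.2 ⟨hij.symm, Finset.mem_univ _⟩
        rw [← Finset.mul_prod_erase Finset.univ _ (Finset.mem_univ i),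
          ← Finset.mul_prod_erase Finset.univ _ (Finset.mem_univ i),
          ← Finset.mul_prod_erase _ _ hj, ← Finset.mul_prod_erase _ _ hj]
        have e1 : ∏ x ∈ (Finset.univ.erase i).erase j,
            φ (a x) (ha x) ((v ∘ ⇑(Equiv.swap i j)) x) =
            ∏ x ∈ (Finset.univ.erase i).erase j, φ (a x) (ha x) (v x) := by
          refine Finset.prod_congr rfl ?_
          intro x hx
          rw [Finset.mem_erase, Finset.mem_erase] at hx
          rw [Function.comp_apply, Equiv.swap_apply_of_ne_of_ne hx.2.1 hx.1]
        rw [e1]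
        rw [Function.comp_apply, Function.comp_apply, Equiv.swap_apply_left,
          Equiv.swap_apply_right]
        have k1 := hex (a i) (ha i) a0 ha0 (v j)
        have k2 := hex (a j) (ha j) (a i) (ha i) (v i)
        have k3 := hex (a j) (ha j) a0 ha0 (v j)
        have k4 := hex (a i) (ha i) a0 ha0 (v i)
        have k5 := hex (a j) (ha j) (a i) (ha i) (v i)
        -- a0 * φ_i(v_j) * φ_j(v_i) = a_i φ_0(v_j) φ_j(v_i) = φ_0(v_j) a_j φ_i(v_i)
        --   = a0 φ_j(v_j) φ_i(v_i)
        have key : Ideal.Quotient.mk I a0 * (φ (a i) (ha i) (v j) * φ (a j) (ha j) (v i)) =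
            Ideal.Quotient.mk I a0 * (φ (a i) (ha i) (v i) * φ (a j) (ha j) (v j)) := by
          calc Ideal.Quotient.mk I a0 * (φ (a i) (ha i) (v j) * φ (a j) (ha j) (v i))
              = (Ideal.Quotient.mk I a0 * φ (a i) (ha i) (v j)) * φ (a j) (ha j) (v i) := by ring
            _ = (Ideal.Quotient.mk I (a i) * φ a0 ha0 (v j)) * φ (a j) (ha j) (v i) := by rw [k1]
            _ = φ a0 ha0 (v j) * (Ideal.Quotient.mk I (a i) * φ (a j) (ha j) (v i)) := by ring
            _ = φ a0 ha0 (v j) * (Ideal.Quotient.mk I (a j) * φ (a i) (ha i) (v i)) := by rw [k2]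
            _ = (Ideal.Quotient.mk I (a j) * φ a0 ha0 (v j)) * φ (a i) (ha i) (v i) := by ring
            _ = (Ideal.Quotient.mk I a0 * φ (a j) (ha j) (v j)) * φ (a i) (ha i) (v i) := by
                rw [k3]
            _ = _ := by ring
        calc Ideal.Quotient.mk I a0 * (φ (a i) (ha i) (v j) * (φ (a j) (ha j) (v i) *
              ∏ x ∈ (Finset.univ.erase i).erase j, φ (a x) (ha x) (v x)))
            = (Ideal.Quotient.mk I a0 * (φ (a i) (ha i) (v j) * φ (a j) (ha j) (v i))) *
              ∏ x ∈ (Finset.univ.erase i).erase j, φ (a x) (ha x) (v x) := by ring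
          _ = (Ideal.Quotient.mk I a0 * (φ (a i) (ha i) (v i) * φ (a j) (ha j) (v j))) *
              ∏ x ∈ (Finset.univ.erase i).erase j, φ (a x) (ha x) (v x) := by rw [key]
          _ = _ := by ring
      have h1 := h M B hs c hc (fun _ => w 0)
      rw [hB] at h1
      have h2 : ∀ i, φ (a i) (ha i) (w 0) = Ideal.Quotient.mk I (a i) := by
        intro i
        rw [hφ (a i) (ha i), hIe, hco (a i) (ha i)]
      simp only [h2] at h1
      rw [← map_prod, ← map_mul, hψ, ← mul_smul] at h1
      exact h1
    -- conclusion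
    set D := Fintype.card ι with hD
    refine ⟨1 + (N + N * D) + N, ?_⟩
    have hle : b ^ (1 + (N + N * D)) ≤ I := by
      rw [pow_add, pow_one, pow_add, pow_mul, Ideal.mul_le]
      intro c hc s hs
      have : b ^ N * (b ^ N) ^ D ≤ Submodule.comap (LinearMap.mulLeft R c) I := by
        rw [Ideal.mul_le]
        intro a0 ha0 t ht
        have h3 : (b ^ N) ^ D ≤ Submodule.comap (LinearMap.mulLeft R (c * a0)) I := by
          refine pow_le_of_prod _ _ _ ?_
          intro f hf
          change (c * a0) * (∏ i, f i) ∈ I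
          rw [hI]
          let e := Fintype.equivFin ι
          have h4 := hval a0 ha0 (fun i => f (e i)) (fun i => hf _) c hc
          rw [Equiv.prod_comp e f] at h4
          rw [mul_assoc]; exact h4
        have h5 := h3 ht
        change (c * a0) * t ∈ I at h5
        change c * (a0 * t) ∈ I
        rw [← mul_assoc]; exact h5
      exact this hs
    intro a ha m
    rw [pow_add] at ha
    refine Submodule.mul_induction_on ha ?_ ?_
    · intro x hx y hy
      have h6 := hle hx
      rw [hI] at h6
      rw [mul_smul, ← hco y hy m, smul_comm, h6, smul_zero]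
    · intro x y hx hy
      rw [add_smul, hx, hy, add_zero]

/-- The key lemma. -/
theorem key {R : Type} [CommRing R] {ι : Type} [Fintype ι] (b : Ideal R)
    (M : Type) [AddCommGroup M] [Module R M] [Module.Finite R M]
    (h : ∀ (A : Type) [AddCommGroup A] [Module R A] (B : MultilinearMap R (fun _ : ι => M) A),
        SymForm B → ∀ a ∈ b, ∀ v, a • B v = 0) : ∃ N : ℕ, ∀ a ∈ b ^ N, ∀ m : M, a • m = 0 := by
  obtain ⟨n, w, hw⟩ := Module.Finite.exists_fin (R := R) (M := M)
  exact key_aux b n M w hw h

end Pool.TF83
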