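import Mathlib
import Pool.Agent.TF83.Key

/-!
# Symmetric multilinear forms in characteristic `p`
-/

set_option autoImplicit false

namespace Pool.TF83

variable {R M A ι : Type} [CommRing R] [AddCommGroup M] [Module R M] [AddCommGroup A]
    [Module R A]

/-- two subsets of `S` of the same size are exchanged by a permutation fixing the complement of
`S` -/
theorem exists_perm [Fintype ι] [DecidableEq ι] (S s s' : Finset ι) (hs : s ⊆ S) (hs' : s' ⊆ S)
    (hc : s.card = s'.card) :
    ∃ σ : Equiv.Perm ι, (∀ i ∉ S, σ i = i) ∧ ∀ i ∈ S, (σ i ∈ S ∧ (i ∈ s ↔ σ i ∈ s')) := by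
  classical
  let P : {i // i ∈ S} → Prop := fun i => i.1 ∈ s
  let Q : {i // i ∈ S} → Prop := fun i => i.1 ∈ s'
  have c1 : Fintype.card {i : {i // i ∈ S} // P i} = s.card := by
    rw [← Fintype.card_coe s]
    refine Fintype.card_congr ?_
    exact
      { toFun := fun x => ⟨x.1.1, x.2⟩
        invFun := fun x => ⟨⟨x.1, hs x.2⟩, x.2⟩
        left_inv := fun x => rfl
        right_inv := fun x => rfl }
  have c2 : Fintype.card {i : {i // i ∈ S} // Q i} = s'.card := by
    rw [← Fintype.card_coe s']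
    refine Fintype.card_congr ?_
    exact
      { toFun := fun x => ⟨x.1.1, x.2⟩
        invFun := fun x => ⟨⟨x.1, hs' x.2⟩, x.2⟩
        left_inv := fun x => rfl
        right_inv := fun x => rfl }
  have e : {i : {i // i ∈ S} // P i} ≃ {i : {i // i ∈ S} // Q i} :=
    Fintype.equivOfCardEq (by rw [c1, c2, hc])
  let τ : Equiv.Perm {i // i ∈ S} := e.extendSubtype
  refine ⟨Equiv.Perm.ofSubtype τ, ?_, ?_⟩
  · intro i hi
    exact Equiv.Perm.ofSubtype_apply_of_not_mem τ hi
  · intro i hi
    have h1 : Equiv.Perm.ofSubtype τ i = (τ ⟨i, hi⟩ : {i // i ∈ S}).1 :=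
      Equiv.Perm.ofSubtype_apply_of_mem τ hi
    rw [h1]
    refine ⟨(τ ⟨i, hi⟩).2, ?_⟩
    constructor
    · intro h
      exact Equiv.extendSubtype_mem e ⟨i, hi⟩ h
    · intro h
      by_contra h'
      exact Equiv.extendSubtype_not_mem e ⟨i, hi⟩ h' h

theorem card_dep [Fintype ι] [DecidableEq ι] (B : MultilinearMap R (fun _ : ι => M) A)
    (hB : SymForm B) (S s s' : Finset ι) (hs : s ⊆ S) (hs' : s' ⊆ S) (hc : s.card = s'.card)
    (y y' : M) (z : ι → M) :
    B (s.piecewise (fun _ => y) (S.piecewise (fun _ => y') z)) =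
      B (s'.piecewise (fun _ => y) (S.piecewise (fun _ => y') z)) := by
  obtain ⟨σ, h1, h2⟩ := exists_perm S s s' hs hs' hc
  rw [← hB σ (s'.piecewise (fun _ => y) (S.piecewise (fun _ => y') z))]
  congr 1
  funext i
  rw [Function.comp_apply]
  by_cases hi : i ∈ S
  · obtain ⟨h3, h4⟩ := h2 i hi
    by_cases his : i ∈ s
    · rw [Finset.piecewise_eq_of_mem _ _ _ his, Finset.piecewise_eq_of_mem _ _ _ (h4.1 his)]
    · rw [Finset.piecewise_eq_of_notMem _ _ _ his,
        Finset.piecewise_eq_of_notMem _ _ _ (fun h => his (h4.2 h)),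
        Finset.piecewise_eq_of_mem _ _ _ hi, Finset.piecewise_eq_of_mem _ _ _ h3]
  · rw [h1 i hi]
    rw [Finset.piecewise_eq_of_notMem _ _ _ (fun h => hi (hs h)),
        Finset.piecewise_eq_of_notMem _ _ _ (fun h => hi (hs' h)),
        Finset.piecewise_eq_of_notMem _ _ _ hi]

/-- Frobenius additivity. -/
theorem frob_add [Fintype ι] [DecidableEq ι] (p : ℕ) [hp : Fact p.Prime]
    (hA : ∀ a : A, p • a = 0) (B : MultilinearMap R (fun _ : ι => M) A)
    (hB : SymForm B) (S : Finset ι) (hS : S.card = p) (y y' : M) (z : ι → M) :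
    B (S.piecewise (fun _ => y + y') z) =
      B (S.piecewise (fun _ => y) z) + B (S.piecewise (fun _ => y') z) := by
  classical
  have h1 := B.map_piecewise_add (fun _ => y) (S.piecewise (fun _ => y') z) S
  have e1 : S.piecewise ((fun _ => y) + (S.piecewise (fun _ => y') z))
      (S.piecewise (fun _ => y') z) = S.piecewise (fun _ => y + y') z := by
    funext i
    by_cases hi : i ∈ S
    · rw [Finset.piecewise_eq_of_mem _ _ _ hi, Finset.piecewise_eq_of_mem _ _ _ hi,
        Pi.add_apply, Finset.piecewise_eq_of_mem _ _ _ hi]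
    · rw [Finset.piecewise_eq_of_notMem _ _ _ hi, Finset.piecewise_eq_of_notMem _ _ _ hi,
        Finset.piecewise_eq_of_notMem _ _ _ hi]
  rw [e1] at h1
  rw [h1]
  -- the canonical subsets
  have hex : ∀ k : ℕ, ∃ t : Finset ι, k ≤ S.card → (t ⊆ S ∧ t.card = k) := by
    intro k
    by_cases hk : k ≤ S.card
    · obtain ⟨t, ht, hc⟩ := Finset.exists_subset_card_eq hk
      exact ⟨t, fun _ => ⟨ht, hc⟩⟩
    · exact ⟨∅, fun h => absurd h hk⟩
  choose t ht using hex
  let f : ℕ → A := fun k => B ((t k).piecewise (fun _ => y) (S.piecewise (fun _ => y') z))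
  have h2 : ∑ s ∈ S.powerset, B (s.piecewise (fun _ => y) (S.piecewise (fun _ => y') z)) =
      ∑ s ∈ S.powerset, f s.card := by
    refine Finset.sum_congr rfl ?_
    intro s hs
    rw [Finset.mem_powerset] at hs
    obtain ⟨h3, h4⟩ := ht s.card (Finset.card_le_card hs)
    exact card_dep B hB S s (t s.card) hs h3 h4.symm y y' z
  rw [h2, Finset.sum_powerset_apply_card, hS]
  have hp0 : 0 < p := hp.out.pos
  rw [Finset.sum_range_succ, Nat.choose_self, one_smul]
  obtain ⟨q, hq⟩ : ∃ q, p = q + 1 := ⟨p - 1, by omega⟩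
  have h5 : ∑ m ∈ Finset.range p, p.choose m • f m = f 0 := by
    rw [hq, Finset.sum_range_succ', Nat.choose_zero_right, one_smul]
    rw [Finset.sum_eq_zero, zero_add]
    intro m hm
    rw [Finset.mem_range] at hm
    rw [← hq]
    obtain ⟨c, hc⟩ := hp.out.dvd_choose_self (k := m + 1) (by omega) (by omega)
    rw [hc, mul_smul, hA]
  rw [h5, add_comm]
  congr 1
  · -- f p
    obtain ⟨h6, h7⟩ := ht p (by rw [hS])
    have : t p = S := Finset.eq_of_subset_of_card_le h6 (by rw [h7, hS])
    change B ((t p).piecewise _ _) = _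
    rw [this]
    congr 1
    funext i
    by_cases hi : i ∈ S
    · rw [Finset.piecewise_eq_of_mem _ _ _ hi, Finset.piecewise_eq_of_mem _ _ _ hi]
    · rw [Finset.piecewise_eq_of_notMem _ _ _ hi, Finset.piecewise_eq_of_notMem _ _ _ hi,
        Finset.piecewise_eq_of_notMem _ _ _ hi]
  · obtain ⟨h6, h7⟩ := ht 0 (Nat.zero_le _)
    have : t 0 = ∅ := Finset.card_eq_zero.1 h7
    change B ((t 0).piecewise _ _) = _
    rw [this, Finset.piecewise_empty]

theorem frob_smul [Fintype ι] [DecidableEq ι] (B : MultilinearMap R (fun _ : ι => M) A)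
    (S : Finset ι) (r : R) (y : M) (z : ι → M) :
    B (S.piecewise (fun _ => r • y) z) = r ^ S.card • B (S.piecewise (fun _ => y) z) := by
  have h := B.map_piecewise_smul (fun _ => r) (S.piecewise (fun _ => y) z) S
  rw [Finset.prod_const] at h
  rw [← h]
  congr 1
  funext i
  by_cases hi : i ∈ S
  · rw [Finset.piecewise_eq_of_mem _ _ _ hi, Finset.piecewise_eq_of_mem _ _ _ hi,
      Finset.piecewise_eq_of_mem _ _ _ hi]
  · rw [Finset.piecewise_eq_of_notMem _ _ _ hi, Finset.piecewise_eq_of_notMem _ _ _ hi,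
      Finset.piecewise_eq_of_notMem _ _ _ hi]

/-- The Frobenius twisted form vanishes on the submodule of sums of `f • v` with
`f ^ p • v = 0`. -/
theorem frob_zero [Fintype ι] [DecidableEq ι] (p : ℕ) [hp : Fact p.Prime]
    (hA : ∀ a : A, p • a = 0) (B : MultilinearMap R (fun _ : ι => M) A)
    (hB : SymForm B) (S : Finset ι) (hS : S.card = p) (f : Ideal R)
    (hf : ∀ r ∈ f, ∀ m : M, r ^ p • m = 0) (y : M) (hy : y ∈ f • (⊤ : Submodule R M))
    (z : ι → M) : B (S.piecewise (fun _ => y) z) = 0 := by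
  refine Submodule.smul_induction_on (p := fun y => B (S.piecewise (fun _ => y) z) = 0) hy ?_ ?_
  · intro r hr m _
    rw [frob_smul, hS]
    obtain ⟨i, hi⟩ : S.Nonempty := by
      rw [← Finset.card_pos, hS]; exact hp.out.pos
    have h1 : B (Function.update (S.piecewise (fun _ => m) z) i (r ^ p • m)) =
        r ^ p • B (S.piecewise (fun _ => m) z) := by
      rw [MultilinearMap.map_update_smul]
      congr 2
      rw [Function.update_eq_self_iff.2]
      rw [Finset.piecewise_eq_of_mem _ _ _ hi]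
    rw [← h1, hf r hr m]
    exact B.map_update_zero _ _
  · intro x y hx hy
    rw [frob_add p hA B hB S hS, hx, hy, add_zero]

end Pool.TF83
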