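import Mathlib
import Pool.Agent.TF83.Frob

/-!
# Polarisation of a multilinear form along additive maps
-/

set_option autoImplicit false

namespace Pool.TF83

variable {R M A ι : Type} [CommRing R] [AddCommGroup M] [Module R M] [AddCommGroup A]
    [Module R A]

/-- alternating sum over the supersets of `S` -/
theorem sum_superset [Fintype ι] [DecidableEq ι] (S : Finset ι) :
    ∑ T : Finset ι, (if S ⊆ T then (-1 : ℤ) ^ T.card else 0) =
      if S = Finset.univ then (-1 : ℤ) ^ (Fintype.card ι) else 0 := by
  classical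
  have h := Finset.prod_add (fun _ : ι => (-1 : ℤ)) (fun i => if i ∉ S then (1 : ℤ) else 0)
    Finset.univ
  rw [Finset.powerset_univ] at h
  have h1 : ∀ T : Finset ι, (∏ _i ∈ T, (-1 : ℤ)) *
      (∏ i ∈ Finset.univ \ T, if i ∉ S then (1 : ℤ) else 0) =
      if S ⊆ T then (-1 : ℤ) ^ T.card else 0 := by
    intro T
    rw [Finset.prod_const]
    by_cases hT : S ⊆ T
    · rw [if_pos hT, Finset.prod_eq_one, mul_one]
      intro i hi
      rw [Finset.mem_sdiff] at hi
      rw [if_pos (fun h => hi.2 (hT h))]
    · rw [if_neg hT]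
      rw [Finset.not_subset] at hT
      obtain ⟨i, hi, hi'⟩ := hT
      rw [Finset.prod_eq_zero (i := i), mul_zero]
      · rw [Finset.mem_sdiff]; exact ⟨Finset.mem_univ _, hi'⟩
      · rw [if_neg (not_not.2 hi)]
  rw [Finset.sum_congr rfl (fun T _ => h1 T)] at h
  rw [← h]
  by_cases hS : S = Finset.univ
  · rw [if_pos hS]
    have : ∀ i ∈ (Finset.univ : Finset ι), ((-1 : ℤ) + if i ∉ S then (1 : ℤ) else 0) = -1 := by
      intro i _
      rw [if_neg (by rw [hS]; simp), add_zero]
    rw [Finset.prod_congr rfl this, Finset.prod_const, Finset.card_univ]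
  · rw [if_neg hS]
    obtain ⟨i, hi⟩ : ∃ i, i ∉ S := by
      by_contra hcon
      push Not at hcon
      exact hS (Finset.eq_univ_iff_forall.2 hcon)
    exact Finset.prod_eq_zero (Finset.mem_univ i) (by rw [if_pos hi]; norm_num)

/-- polarisation -/
theorem polar [Fintype ι] [DecidableEq ι] {P : Type} [AddCommGroup P]
    (B : MultilinearMap R (fun _ : ι => M) A) (a : ι → (P →+ M)) (x : P) (w : ι → P)
    (h : ∀ T : Finset ι, B (fun i => a i (x + ∑ j ∈ T, w j)) = 0) :
    ∑ π : Equiv.Perm ι, B (fun i => a i (w (π i))) = 0 := by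
  classical
  let u : ι → Option ι → M := fun i o => o.elim (a i x) (fun j => a i (w j))
  let rg : (ι → Option ι) → Finset ι := fun r => Finset.univ.filter (fun j => ∃ i, r i = some j)
  have h1 : ∀ T : Finset ι, ∑ r : ι → Option ι, (if rg r ⊆ T then B (fun i => u i (r i)) else 0)
      = 0 := by
    intro T
    have h2 := h T
    have e1 : (fun i => a i (x + ∑ j ∈ T, w j)) = fun i => ∑ o ∈ Finset.insertNone T, u i o := by
      funext i
      rw [Finset.sum_insertNone, map_add, map_sum]
      rfl
    rw [e1, MultilinearMap.map_sum_finset] at h2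
    refine Eq.trans ?_ h2
    rw [← Finset.sum_filter]
    refine Finset.sum_congr ?_ (fun _ _ => rfl)
    ext r
    rw [Finset.mem_filter, Fintype.mem_piFinset]
    constructor
    · rintro ⟨-, hr⟩ i
      rw [Finset.mem_insertNone]
      intro j hj
      exact hr (Finset.mem_filter.2 ⟨Finset.mem_univ _, i, hj⟩)
    · intro hr
      refine ⟨Finset.mem_univ _, ?_⟩
      intro j hj
      rw [Finset.mem_filter] at hj
      obtain ⟨i, hi⟩ := hj.2
      exact Finset.mem_insertNone.1 (hr i) j hi
  have h3 : ∑ T : Finset ι, ((-1 : ℤ) ^ T.card) •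
      ∑ r : ι → Option ι, (if rg r ⊆ T then B (fun i => u i (r i)) else 0) = 0 := by
    refine Finset.sum_eq_zero ?_
    intro T _
    rw [h1, smul_zero]
  simp_rw [Finset.smul_sum] at h3
  rw [Finset.sum_comm] at h3
  have h4 : ∀ r : ι → Option ι, ∑ T : Finset ι, ((-1 : ℤ) ^ T.card) •
      (if rg r ⊆ T then B (fun i => u i (r i)) else 0) =
      (if rg r = Finset.univ then (-1 : ℤ) ^ (Fintype.card ι) else 0) •
        B (fun i => u i (r i)) := by
    intro r
    rw [← sum_superset (rg r), Finset.sum_smul]
    refine Finset.sum_congr rfl ?_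
    intro T _
    by_cases hT : rg r ⊆ T
    · rw [if_pos hT, if_pos hT]
    · rw [if_neg hT, if_neg hT, smul_zero, zero_smul]
  rw [Finset.sum_congr rfl (fun r _ => h4 r)] at h3
  have h5 : ∑ r : ι → Option ι, (if rg r = Finset.univ then (-1 : ℤ) ^ (Fintype.card ι) else 0) •
      B (fun i => u i (r i)) = ((-1 : ℤ) ^ (Fintype.card ι)) •
        ∑ r ∈ Finset.univ.filter (fun r : ι → Option ι => rg r = Finset.univ),
          B (fun i => u i (r i)) := by
    rw [Finset.smul_sum, Finset.sum_filter]
    refine Finset.sum_congr rfl ?_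
    intro r _
    by_cases hr : rg r = Finset.univ
    · rw [if_pos hr, if_pos hr]
    · rw [if_neg hr, if_neg hr, zero_smul]
  rw [h5] at h3
  have h6 : ∑ r ∈ Finset.univ.filter (fun r : ι → Option ι => rg r = Finset.univ),
      B (fun i => u i (r i)) = 0 := by
    have h7 : ((-1 : ℤ) ^ (Fintype.card ι)) • (((-1 : ℤ) ^ (Fintype.card ι)) •
        ∑ r ∈ Finset.univ.filter (fun r : ι → Option ι => rg r = Finset.univ),
          B (fun i => u i (r i))) = 0 := by rw [h3, smul_zero]
    rw [← mul_smul, ← mul_pow] at h7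
    simpa using h7
  rw [← h6]
  refine Finset.sum_bij (fun π _ => fun i => some (π i)) ?_ ?_ ?_ ?_
  · intro π _
    rw [Finset.mem_filter]
    refine ⟨Finset.mem_univ _, ?_⟩
    rw [Finset.eq_univ_iff_forall]
    intro j
    exact Finset.mem_filter.2 ⟨Finset.mem_univ _, π.symm j, by simp⟩
  · intro π _ π' _ hππ
    ext i
    have := congrFun hππ i
    simpa using this
  · intro r hr
    rw [Finset.mem_filter] at hr
    have hsurj : ∀ j, ∃ i, r i = some j := by
      intro j
      have : j ∈ rg r := by rw [hr.2]; exact Finset.mem_univ _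
      exact (Finset.mem_filter.1 this).2
    choose g hg using hsurj
    have hginj : Function.Injective g := by
      intro j j' hj
      have := hg j
      rw [hj, hg j'] at this
      exact (Option.some.inj this).symm
    have hgb : Function.Bijective g := Finite.injective_iff_bijective.1 hginj
    let π : Equiv.Perm ι := (Equiv.ofBijective g hgb).symm
    refine ⟨π, Finset.mem_univ _, ?_⟩
    funext i
    have h8 : g (π i) = i := (Equiv.ofBijective g hgb).apply_symm_apply i
    have h9 := hg (π i)
    rw [h8] at h9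
    exact h9.symm
  · intro π _
    rfl

end Pool.TF83
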